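import Mathlib

namespace Pool.Agent.H964R2.Gor

variable {k S : Type} [Field k] [CommRing S] [Algebra k S]

/-- The element `b j * ∏ θ i ^ α i`. -/
def mon {D : ℕ} {J : Type} (θ : Fin D → S) (b : J → S) (x : J × (Fin D → ℕ)) : S :=
  b x.1 * ∏ i, θ i ^ x.2 i

/-- `θ` are homogeneous of degree `d`, `b j` is homogeneous of degree `n j`, and `S` is a free
module with basis `b` over the polynomial ring `k[θ]`. -/
structure Normalization (𝒮 : ℕ → Submodule k S) (d : ℕ) {D : ℕ} {J : Type} (θ : Fin D → S)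
    (b : J → S) (n : J → ℕ) : Prop where
  theta_mem : ∀ i, θ i ∈ 𝒮 d
  basis_mem : ∀ j, b j ∈ 𝒮 (n j)
  li : LinearIndependent k (mon θ b)
  span : Submodule.span k (Set.range (mon θ b)) = ⊤

/-- degree of `mon θ b x` -/
def wt {D : ℕ} {J : Type} (d : ℕ) (n : J → ℕ) (x : J × (Fin D → ℕ)) : ℕ :=
  n x.1 + d * ∑ i, x.2 i

variable {𝒮 : ℕ → Submodule k S} [GradedAlgebra 𝒮] {d D : ℕ} {J : Type} {θ : Fin D → S}
  {b : J → S} {n : J → ℕ}

lemma mon_mem (h : Normalization 𝒮 d θ b n) (x : J × (Fin D → ℕ)) :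
    mon θ b x ∈ 𝒮 (wt d n x) := by
  have h1 : ∏ i, θ i ^ x.2 i ∈ 𝒮 (∑ i, x.2 i • d) :=
    SetLike.prod_mem_graded 𝒮 _ _ (fun i _ => SetLike.pow_mem_graded _ (h.theta_mem i))
  have h2 : (∑ i, x.2 i • d) = d * ∑ i, x.2 i := by
    rw [Finset.mul_sum]
    exact Finset.sum_congr rfl fun i _ => by rw [smul_eq_mul, mul_comm]
  rw [h2] at h1
  exact SetLike.mul_mem_graded (h.basis_mem x.1) h1

lemma piece_eq (h : Normalization 𝒮 d θ b n) (m : ℕ) :
    𝒮 m = Submodule.span k (mon θ b '' {x | wt d n x = m}) := by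
  classical
  apply le_antisymm
  · intro s hs
    have h1 : s ∈ Submodule.span k (Set.range (mon θ b)) := by rw [h.span]; trivial
    have h2 : GradedAlgebra.proj 𝒮 m s ∈
        Submodule.map (GradedAlgebra.proj 𝒮 m) (Submodule.span k (Set.range (mon θ b))) :=
      Submodule.mem_map_of_mem h1
    have h3 : GradedAlgebra.proj 𝒮 m s = s := by
      rw [GradedAlgebra.proj_apply]
      exact DirectSum.decompose_of_mem_same 𝒮 hs
    rw [h3, Submodule.map_span] at h2
    refine (Submodule.span_le.mpr ?_) h2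
    rintro _ ⟨_, ⟨x, rfl⟩, rfl⟩
    rw [GradedAlgebra.proj_apply]
    by_cases hx : wt d n x = m
    · have h4 : mon θ b x ∈ 𝒮 m := hx ▸ mon_mem h x
      rw [DirectSum.decompose_of_mem_same 𝒮 h4]
      exact Submodule.subset_span ⟨x, hx, rfl⟩
    · rw [DirectSum.decompose_of_mem_ne 𝒮 (mon_mem h x) hx]
      exact Submodule.zero_mem _
  · apply Submodule.span_le.mpr
    rintro _ ⟨x, hx, rfl⟩
    have := mon_mem h x
    rw [show wt d n x = m from hx] at this
    exact this

lemma finite_wt [Finite J] (hd : 0 < d) (n : J → ℕ) (m : ℕ) :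
    Finite {x : J × (Fin D → ℕ) // wt d n x = m} := by
  have := Fintype.ofFinite J
  have h1 : Set.Finite {x : J × (Fin D → ℕ) | ∀ i, x.2 i ≤ m} := by
    have h2 : {x : J × (Fin D → ℕ) | ∀ i, x.2 i ≤ m} =
        (Set.univ : Set J) ×ˢ (Set.pi Set.univ fun _ : Fin D => Set.Iic m) := by
      ext x
      simp [Pi.le_def]
    rw [h2]
    exact Set.finite_univ.prod (Set.Finite.pi fun _ => Set.finite_Iic m)
  refine Set.Finite.subset h1 ?_
  rintro x hx i
  have h3 : x.2 i ≤ ∑ i, x.2 i := Finset.single_le_sum (fun _ _ => Nat.zero_le _) (Finset.mem_univ i)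
  have h4 : ∑ i, x.2 i ≤ d * ∑ i, x.2 i := Nat.le_mul_of_pos_left _ hd
  have h5 : wt d n x = m := hx
  rw [wt] at h5
  omega

lemma finrank_piece [Finite J] (hd : 0 < d) (h : Normalization 𝒮 d θ b n) (m : ℕ) :
    Module.finrank k (𝒮 m) = Nat.card {x : J × (Fin D → ℕ) // wt d n x = m} := by
  classical
  have := finite_wt (D := D) hd n m
  have := Fintype.ofFinite {x : J × (Fin D → ℕ) // wt d n x = m}
  rw [piece_eq h m, Nat.card_eq_fintype_card]
  have h1 : mon θ b '' {x | wt d n x = m} =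
      Set.range (fun x : {x : J × (Fin D → ℕ) // wt d n x = m} => mon θ b x.1) := by
    ext s
    constructor
    · rintro ⟨x, hx, rfl⟩; exact ⟨⟨x, hx⟩, rfl⟩
    · rintro ⟨x, rfl⟩; exact ⟨x.1, x.2, rfl⟩
  rw [h1]
  exact finrank_span_eq_card (h.li.comp _ Subtype.val_injective)

/-! ## The Hilbert series -/

open PowerSeries in
/-- `1 + X ^ d + X ^ (2 d) + ...` -/
noncomputable def ser (d : ℕ) : PowerSeries ℤ := PowerSeries.mk fun m => if d ∣ m then 1 else 0

lemma ser_mul {d : ℕ} (hd : 0 < d) :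
    ser d * ((1 - Polynomial.X ^ d : Polynomial ℤ) : PowerSeries ℤ) = 1 := by
  ext m
  rw [Polynomial.coe_sub, Polynomial.coe_one, Polynomial.coe_pow, Polynomial.coe_X, mul_sub, mul_one,
    map_sub, PowerSeries.coeff_mul_X_pow', ser, PowerSeries.coeff_mk, PowerSeries.coeff_one]
  by_cases hm : d ≤ m
  · rw [if_pos hm, PowerSeries.coeff_mk, if_neg (show ¬ m = 0 by omega)]
    have : d ∣ m ↔ d ∣ m - d := by
      constructor
      · intro h; exact Nat.dvd_sub h (dvd_refl d)
      · intro h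
        have := Nat.dvd_add h (dvd_refl d)
        rwa [Nat.sub_add_cancel hm] at this
    by_cases h : d ∣ m
    · rw [if_pos h, if_pos (this.mp h), sub_self]
    · rw [if_neg h, if_neg (fun h' => h (this.mpr h')), sub_self]
  · rw [if_neg hm, sub_zero]
    by_cases h0 : m = 0
    · rw [if_pos h0, h0, if_pos (dvd_zero d)]
    · rw [if_neg h0, if_neg]
      intro h
      exact hm (Nat.le_of_dvd (Nat.pos_of_ne_zero h0) h)

lemma coeff_ser_pow (hd : 0 < d) (D r : ℕ) : PowerSeries.coeff r (ser d ^ D) =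
    (Nat.card {α : Fin D → ℕ // d * ∑ i, α i = r} : ℤ) := by
  classical
  have h1 : ser d ^ D = ∏ _i : Fin D, ser d := by
    rw [Finset.prod_const, Finset.card_univ, Fintype.card_fin]
  rw [h1, PowerSeries.coeff_prod]
  simp only [ser, PowerSeries.coeff_mk]
  simp_rw [Finset.prod_ite_zero, Finset.prod_const_one]
  rw [Finset.sum_boole]
  congr 1
  rw [← Nat.card_eq_finsetCard]
  have key : ∀ l : Fin D →₀ ℕ, l ∈ {x ∈ (Finset.univ : Finset (Fin D)).finsuppAntidiag r | ∀ i ∈ Finset.univ, d ∣ x i} ↔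
      (∑ i, l i = r ∧ ∀ i, d ∣ l i) := by
    intro l
    rw [Finset.mem_filter, Finset.mem_finsuppAntidiag]
    constructor
    · rintro ⟨⟨h2, -⟩, h3⟩; exact ⟨h2, fun i => h3 i (Finset.mem_univ i)⟩
    · rintro ⟨h2, h3⟩; exact ⟨⟨h2, Finset.subset_univ _⟩, fun i _ => h3 i⟩
  refine Nat.card_congr
    { toFun := fun l => ⟨fun i => l.1 i / d, ?_⟩
      invFun := fun α => ⟨Finsupp.equivFunOnFinite.symm (fun i => d * α.1 i), ?_⟩
      left_inv := ?_
      right_inv := ?_ }
  · obtain ⟨h2, h3⟩ := (key l.1).mp l.2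
    rw [Finset.mul_sum]
    exact (Finset.sum_congr rfl fun i _ => Nat.mul_div_cancel' (h3 i)).trans h2
  · rw [key]
    refine ⟨?_, fun i => ⟨α.1 i, rfl⟩⟩
    have := α.2
    rw [Finset.mul_sum] at this
    exact this
  · intro l
    obtain ⟨h2, h3⟩ := (key l.1).mp l.2
    apply Subtype.ext
    ext i
    exact Nat.mul_div_cancel' (h3 i)
  · intro α
    apply Subtype.ext
    funext i
    exact Nat.mul_div_cancel_left _ hd

lemma card_wt [Finite J] (hd : 0 < d) (n : J → ℕ) (m : ℕ) (inst : Fintype J) :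
    (Nat.card {x : J × (Fin D → ℕ) // wt d n x = m} : ℤ) =
      ∑ j, if n j ≤ m then PowerSeries.coeff (m - n j) (ser d ^ D) else 0 := by
  classical
  have e1 : {x : J × (Fin D → ℕ) // wt d n x = m} ≃
      (Σ j : J, {α : Fin D → ℕ // n j + d * ∑ i, α i = m}) :=
    { toFun := fun x => ⟨x.1.1, x.1.2, x.2⟩
      invFun := fun x => ⟨(x.1, x.2.1), x.2.2⟩
      left_inv := fun x => rfl
      right_inv := fun x => rfl }
  have hfin : ∀ j, Finite {α : Fin D → ℕ // n j + d * ∑ i, α i = m} := fun j => by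
    have := finite_wt (D := D) hd n m
    exact Finite.of_injective (fun α => (⟨(j, α.1), α.2⟩ :
      {x : J × (Fin D → ℕ) // wt d n x = m})) (fun α β h => by
        have := congrArg (fun z => z.1.2) h
        exact Subtype.ext this)
  rw [Nat.card_congr e1, Nat.card_sigma]
  push_cast
  refine Finset.sum_congr rfl fun j _ => ?_
  by_cases hj : n j ≤ m
  · rw [if_pos hj, coeff_ser_pow hd]
    congr 1
    exact Nat.card_congr (Equiv.subtypeEquivRight fun α => by
      constructor
      · intro h; omega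
      · intro h; omega)
  · rw [if_neg hj]
    have : IsEmpty {α : Fin D → ℕ // n j + d * ∑ i, α i = m} := ⟨fun α => by
      have := α.2
      omega⟩
    rw [Nat.card_of_isEmpty, Nat.cast_zero]

/-- the numerator of the Hilbert series -/
noncomputable def num (J : Type) [Fintype J] (n : J → ℕ) : Polynomial ℤ := ∑ j, Polynomial.X ^ n j

lemma num_coeff (J : Type) [Fintype J] (n : J → ℕ) (i : ℕ) :
    (num J n).coeff i = (Nat.card {j // n j = i} : ℤ) := by
  classical
  rw [num, Polynomial.finsetSum_coeff]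
  simp only [Polynomial.coeff_X_pow]
  rw [Nat.card_eq_fintype_card, Fintype.card_subtype, Finset.sum_boole]
  congr 2
  ext j
  simp [eq_comm]

theorem hilb [Fintype J] (hd : 0 < d) (h : Normalization 𝒮 d θ b n) :
    (PowerSeries.mk fun m => (Module.finrank k (𝒮 m) : ℤ)) *
      ((1 - Polynomial.X ^ d : Polynomial ℤ) : PowerSeries ℤ) ^ D = (num J n : PowerSeries ℤ) := by
  have h1 : (PowerSeries.mk fun m => (Module.finrank k (𝒮 m) : ℤ)) =
      (num J n : PowerSeries ℤ) * ser d ^ D := by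
    ext m
    rw [PowerSeries.coeff_mk, finrank_piece hd h, card_wt hd n m inferInstance, num]
    have : ((∑ j : J, Polynomial.X ^ n j : Polynomial ℤ) : PowerSeries ℤ) =
        ∑ j : J, PowerSeries.X ^ n j := by
      rw [← Polynomial.coeToPowerSeries.ringHom_apply, map_sum]
      refine Finset.sum_congr rfl fun j _ => ?_
      rw [Polynomial.coeToPowerSeries.ringHom_apply, Polynomial.coe_pow, Polynomial.coe_X]
    rw [this, Finset.sum_mul, map_sum]
    refine Finset.sum_congr rfl fun j _ => ?_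
    rw [PowerSeries.coeff_X_pow_mul']
  rw [h1, mul_assoc, ← mul_pow, ser_mul hd, one_pow, mul_one]

end Pool.Agent.H964R2.Gor
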