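import Mathlib
import Pool.Agent.H964R2.Gor.Basis

namespace Pool.Agent.H964R2.Gor

variable {k S : Type} [Field k] [CommRing S] [Algebra k S]
variable {𝒮 : ℕ → Submodule k S} [GradedAlgebra 𝒮] {d D : ℕ} {J : Type} {θ : Fin D → S}
  {b : J → S} {n : J → ℕ}

/-- the ideal generated by `θ` as a `k`-subspace -/
lemma ideal_eq (h : Normalization 𝒮 d θ b n) :
    (Ideal.span (Set.range θ)).restrictScalars k =
      Submodule.span k (mon θ b '' {x | x.2 ≠ 0}) := by
  classical
  apply le_antisymm
  · intro s hs
    rw [Submodule.restrictScalars_mem] at hs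
    refine Submodule.span_induction (p := fun q _ => q ∈ Submodule.span k
      (mon θ b '' {x | x.2 ≠ 0})) ?_ (Submodule.zero_mem _)
      (fun _ _ _ _ => Submodule.add_mem _) ?_ hs
    · rintro _ ⟨i, rfl⟩
      -- `θ i = 1 * θ i`
      have h1 : (1 : S) ∈ Submodule.span k (Set.range (mon θ b)) := by rw [h.span]; trivial
      have h2 : ∀ t ∈ Submodule.span k (Set.range (mon θ b)),
          t * θ i ∈ Submodule.span k (mon θ b '' {x | x.2 ≠ 0}) := by
        intro t ht
        refine Submodule.span_induction (p := fun q _ => q * θ i ∈ Submodule.span k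
          (mon θ b '' {x | x.2 ≠ 0})) ?_ ?_ ?_ ?_ ht
        · rintro _ ⟨x, rfl⟩
          apply Submodule.subset_span
          refine ⟨(x.1, x.2 + Pi.single i 1), ?_, ?_⟩
          · intro h0
            have := congrFun h0 i
            simp at this
          · simp only [mon, Pi.add_apply, pow_add, Finset.prod_mul_distrib]
            have : ∏ l, θ l ^ (Pi.single i 1 : Fin D → ℕ) l = θ i := by
              rw [Finset.prod_eq_single i]
              · simp
              · intro l _ hl
                simp [hl]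
              · simp
            rw [this]; ring
        · simp
        · intro a c _ _ ha hc
          rw [add_mul]; exact Submodule.add_mem _ ha hc
        · intro r a _ ha
          rw [smul_mul_assoc]; exact Submodule.smul_mem _ _ ha
      have := h2 1 h1
      rwa [one_mul] at this
    · intro r a _ ha
      rw [smul_eq_mul]
      have h2 : ∀ t ∈ Submodule.span k (Set.range (mon θ b)), ∀ a ∈ Submodule.span k
          (mon θ b '' {x | x.2 ≠ 0}), t * a ∈ Submodule.span k (mon θ b '' {x | x.2 ≠ 0}) := by
        -- `mon x * θ^α` with `α ≠ 0` and any `t`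
        intro t _ a ha
        refine Submodule.span_induction (p := fun q _ => t * q ∈ Submodule.span k
          (mon θ b '' {x | x.2 ≠ 0})) ?_ ?_ ?_ ?_ ha
        · rintro _ ⟨x, hx, rfl⟩
          have h3 : t * b x.1 ∈ Submodule.span k (Set.range (mon θ b)) := by
            rw [h.span]; trivial
          have h4 : ∀ u ∈ Submodule.span k (Set.range (mon θ b)),
              u * ∏ i, θ i ^ x.2 i ∈ Submodule.span k (mon θ b '' {x | x.2 ≠ 0}) := by
            intro u hu
            refine Submodule.span_induction (p := fun q _ => q * ∏ i, θ i ^ x.2 i ∈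
              Submodule.span k (mon θ b '' {x | x.2 ≠ 0})) ?_ ?_ ?_ ?_ hu
            · rintro _ ⟨y, rfl⟩
              apply Submodule.subset_span
              refine ⟨(y.1, y.2 + x.2), ?_, ?_⟩
              · intro h0
                apply hx
                funext i
                have := congrFun h0 i
                simp only [Pi.add_apply, Pi.zero_apply] at this ⊢
                omega
              · simp only [mon, Pi.add_apply, pow_add, Finset.prod_mul_distrib]
                ring
            · simp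
            · intro a c _ _ ha hc
              rw [add_mul]; exact Submodule.add_mem _ ha hc
            · intro r a _ ha
              rw [smul_mul_assoc]; exact Submodule.smul_mem _ _ ha
          have := h4 _ h3
          rwa [mul_assoc] at this
        · simp
        · intro a c _ _ ha hc
          rw [mul_add]; exact Submodule.add_mem _ ha hc
        · intro r a _ ha
          rw [mul_smul_comm]; exact Submodule.smul_mem _ _ ha
      exact h2 r (by rw [h.span]; trivial) a ha
  · apply Submodule.span_le.mpr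
    rintro _ ⟨x, hx, rfl⟩
    show mon θ b x ∈ Ideal.span (Set.range θ)
    obtain ⟨i, hi⟩ : ∃ i, x.2 i ≠ 0 := by
      by_contra hc
      push Not at hc
      exact hx (funext hc)
    rw [mon]
    apply Ideal.mul_mem_left
    rw [← Finset.mul_prod_erase _ _ (Finset.mem_univ i)]
    apply Ideal.mul_mem_right
    exact Ideal.pow_mem_of_mem _ (Ideal.subset_span (Set.mem_range_self i)) _ (Nat.pos_of_ne_zero hi)

/-- the span of the basis elements of degree `m` -/
def VV (k : Type) {S : Type} [Field k] [CommRing S] [Algebra k S] {J : Type} (b : J → S)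
    (n : J → ℕ) (m : ℕ) : Submodule k S :=
  Submodule.span k (b '' {j | n j = m})

lemma b_eq (j : J) : b j = mon θ b (j, 0) := by simp [mon]

lemma VV_le (h : Normalization 𝒮 d θ b n) (m : ℕ) : VV k b n m ≤ 𝒮 m := by
  apply Submodule.span_le.mpr
  rintro _ ⟨j, hj, rfl⟩
  have := h.basis_mem j
  rw [show n j = m from hj] at this
  exact this

lemma VV_inf (h : Normalization 𝒮 d θ b n) {m : ℕ} {v : S} (hv : v ∈ VV k b n m)
    (hI : v ∈ Ideal.span (Set.range θ)) : v = 0 := by
  have h1 : VV k b n m ≤ Submodule.span k (mon θ b '' {x | x.2 = 0}) := by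
    apply Submodule.span_le.mpr
    rintro _ ⟨j, _, rfl⟩
    exact Submodule.subset_span ⟨(j, 0), rfl, (b_eq j).symm⟩
  have h2 : v ∈ Submodule.span k (mon θ b '' {x | x.2 ≠ 0}) := by
    rw [← ideal_eq h]; exact hI
  have h3 : Disjoint {x : J × (Fin D → ℕ) | x.2 = 0} {x | x.2 ≠ 0} := by
    rw [Set.disjoint_left]
    intro x hx hx'
    exact hx' hx
  have h4 := h.li.disjoint_span_image h3
  exact Submodule.disjoint_def.mp h4 v (h1 hv) h2

lemma exists_VV (h : Normalization 𝒮 d θ b n) {m : ℕ} {s : S} (hs : s ∈ 𝒮 m) :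
    ∃ v ∈ VV k b n m, s - v ∈ Ideal.span (Set.range θ) := by
  rw [piece_eq h m] at hs
  refine Submodule.span_induction (p := fun q _ => ∃ v ∈ VV k b n m,
    q - v ∈ Ideal.span (Set.range θ)) ?_ ?_ ?_ ?_ hs
  · rintro _ ⟨x, hx, rfl⟩
    by_cases h0 : x.2 = 0
    · refine ⟨b x.1, Submodule.subset_span ⟨x.1, ?_, rfl⟩, ?_⟩
      · have : wt d n x = m := hx
        rw [wt, h0] at this
        simpa using this
      · have : mon θ b x = b x.1 := by simp [mon, h0]
        rw [this, sub_self]; exact Submodule.zero_mem _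
    · refine ⟨0, Submodule.zero_mem _, ?_⟩
      rw [sub_zero]
      have : mon θ b x ∈ (Ideal.span (Set.range θ)).restrictScalars k := by
        rw [ideal_eq h]; exact Submodule.subset_span ⟨x, h0, rfl⟩
      exact this
  · exact ⟨0, Submodule.zero_mem _, by simp⟩
  · rintro a c _ _ ⟨v, hv, hv'⟩ ⟨w, hw, hw'⟩
    refine ⟨v + w, Submodule.add_mem _ hv hw, ?_⟩
    have : a + c - (v + w) = (a - v) + (c - w) := by ring
    rw [this]; exact Submodule.add_mem _ hv' hw'
  · rintro r a _ ⟨v, hv, hv'⟩
    refine ⟨r • v, Submodule.smul_mem _ _ hv, ?_⟩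
    rw [← smul_sub, Algebra.smul_def]
    exact Ideal.mul_mem_left _ _ hv'

lemma finrank_VV [Finite J] (h : Normalization 𝒮 d θ b n) (m : ℕ) :
    Module.finrank k (VV k b n m) = Nat.card {j // n j = m} := by
  classical
  have := Fintype.ofFinite J
  have h1 : b '' {j | n j = m} = Set.range (fun j : {j // n j = m} => b j.1) := by
    ext s
    constructor
    · rintro ⟨x, hx, rfl⟩; exact ⟨⟨x, hx⟩, rfl⟩
    · rintro ⟨x, rfl⟩; exact ⟨x.1, x.2, rfl⟩
  rw [VV, h1, Nat.card_eq_fintype_card]
  apply finrank_span_eq_card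
  have h2 : (fun j : {j // n j = m} => b j.1) = mon θ b ∘ (fun j => (j.1, 0)) := by
    funext j
    exact b_eq j.1
  rw [h2]
  exact h.li.comp _ (fun i j hij => Subtype.ext (congrArg Prod.fst hij))

/-- the ideal generated by `θ` is homogeneous -/
lemma proj_mem (h : Normalization 𝒮 d θ b n) {s : S} (hs : s ∈ Ideal.span (Set.range θ)) (m : ℕ) :
    GradedAlgebra.proj 𝒮 m s ∈ Ideal.span (Set.range θ) := by
  have h1 : s ∈ (Ideal.span (Set.range θ)).restrictScalars k := hs
  rw [ideal_eq h] at h1
  have h2 : GradedAlgebra.proj 𝒮 m s ∈ (Ideal.span (Set.range θ)).restrictScalars k := by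
    refine Submodule.span_induction (p := fun q _ => GradedAlgebra.proj 𝒮 m q ∈
      (Ideal.span (Set.range θ)).restrictScalars k) ?_ ?_ ?_ ?_ h1
    · rintro _ ⟨x, hx, rfl⟩
      rw [GradedAlgebra.proj_apply]
      by_cases hm : wt d n x = m
      · have h4 : mon θ b x ∈ 𝒮 m := hm ▸ mon_mem h x
        rw [DirectSum.decompose_of_mem_same 𝒮 h4, ideal_eq h]
        exact Submodule.subset_span ⟨x, hx, rfl⟩
      · rw [DirectSum.decompose_of_mem_ne 𝒮 (mon_mem h x) hm]
        exact Submodule.zero_mem _
    · rw [map_zero]; exact Submodule.zero_mem _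
    · intro a c _ _ ha hc
      rw [map_add]; exact Submodule.add_mem _ ha hc
    · intro r a _ ha
      rw [map_smul]; exact Submodule.smul_mem _ _ ha
  exact h2

lemma pairing [Finite J] (h : Normalization 𝒮 d θ b n) {e : ℕ}
    (htop : ∀ m, e < m → ∀ s ∈ 𝒮 m, s ∈ Ideal.span (Set.range θ)) {z : S} (hz : z ∈ 𝒮 e)
    (hzI : z ∉ Ideal.span (Set.range θ))
    (hsoc : ∀ x : S, (∀ m, 0 < m → ∀ s ∈ 𝒮 m, s * x ∈ Ideal.span (Set.range θ)) →
      ∃ c : k, x - c • z ∈ Ideal.span (Set.range θ)) {i : ℕ} (hi : i ≤ e) :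
    Nat.card {j // n j = i} ≤ Nat.card {j // n j = e - i} := by
  classical
  set I := Ideal.span (Set.range θ) with hI
  set Ik : Submodule k S := I.restrictScalars k with hIk
  obtain ⟨φ, hφ⟩ : ∃ φ : Module.Dual k (S ⧸ Ik), φ (Ik.mkQ z) ≠ 0 := by
    by_contra hc
    push Not at hc
    have := (Module.forall_dual_apply_eq_zero_iff k (Ik.mkQ z)).mp hc
    rw [Submodule.mkQ_apply, Submodule.Quotient.mk_eq_zero] at this
    exact hzI this
  let lam : S →ₗ[k] k := φ ∘ₗ Ik.mkQ
  have hlI : ∀ s ∈ I, lam s = 0 := by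
    intro s hs
    have : Ik.mkQ s = 0 := by
      rw [Submodule.mkQ_apply, Submodule.Quotient.mk_eq_zero]; exact hs
    show φ (Ik.mkQ s) = 0
    rw [this, map_zero]
  have hle : ∀ s ∈ 𝒮 e, s ∉ I → lam s ≠ 0 := by
    intro s hs hsI h0
    obtain ⟨c, hc⟩ := hsoc s (fun m hm t ht => htop (m + e) (by omega) _
      (SetLike.mul_mem_graded ht hs))
    have h1 : lam (s - c • z) = 0 := hlI _ hc
    rw [map_sub, h0, map_smul, zero_sub, neg_eq_zero, smul_eq_mul] at h1
    rcases mul_eq_zero.mp h1 with h2 | h2
    · apply hsI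
      rw [h2, zero_smul, sub_zero] at hc
      exact hc
    · exact hφ h2
  -- non-degeneracy
  have hnd : ∀ v ∈ VV k b n i, v ≠ 0 → ∃ w ∈ VV k b n (e - i), lam (v * w) ≠ 0 := by
    intro v hv hv0
    have hvI : v ∉ I := fun hvI => hv0 (VV_inf h hv hvI)
    have hvi : v ∈ 𝒮 i := VV_le h i hv
    let P : ℕ → Prop := fun j => ∃ y ∈ 𝒮 j, v * y ∉ I
    have hP0 : P 0 := ⟨1, SetLike.one_mem_graded 𝒮, by rwa [mul_one]⟩
    have hPe : ∀ j, P j → i + j ≤ e := by
      rintro j ⟨y, hy, hvy⟩
      by_contra hc
      exact hvy (htop (i + j) (by omega) _ (SetLike.mul_mem_graded hvi hy))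
    obtain ⟨j, hj, hjmax⟩ : ∃ j, P j ∧ ∀ j', j < j' → ¬ P j' := by
      let j := Nat.findGreatest P e
      refine ⟨j, Nat.findGreatest_spec (m := 0) (Nat.zero_le e) hP0, fun j' hj' hP => ?_⟩
      exact Nat.findGreatest_is_greatest hj' (by have := hPe j' hP; omega) hP
    obtain ⟨y, hy, hvy⟩ := hj
    obtain ⟨c, hc⟩ := hsoc (v * y) (fun m hm t ht => by
      by_contra hcon
      apply hjmax (j + m) (by omega)
      refine ⟨y * t, SetLike.mul_mem_graded hy ht, ?_⟩
      rwa [← mul_assoc, mul_comm])
    have hc0 : c ≠ 0 := by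
      rintro rfl
      rw [zero_smul, sub_zero] at hc
      exact hvy hc
    have hij : i + j = e := by
      by_contra hne
      have h1 := proj_mem h hc e
      have hxy : v * y ∈ 𝒮 (i + j) := SetLike.mul_mem_graded hvi hy
      rw [map_sub, map_smul, GradedAlgebra.proj_apply, GradedAlgebra.proj_apply,
        DirectSum.decompose_of_mem_ne 𝒮 hxy hne, DirectSum.decompose_of_mem_same 𝒮 hz,
        zero_sub] at h1
      have h2 : c • z ∈ I := by
        have := I.neg_mem h1
        rwa [neg_neg] at this
      apply hzI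
      have h3 : c⁻¹ • (c • z) ∈ I := by
        rw [Algebra.smul_def]; exact Ideal.mul_mem_left _ _ h2
      rwa [smul_smul, inv_mul_cancel₀ hc0, one_smul] at h3
    have hj' : j = e - i := by omega
    rw [hj'] at hy
    obtain ⟨w, hw, hyw⟩ := exists_VV h hy
    refine ⟨w, hw, ?_⟩
    have h1 : v * y = v * w + v * (y - w) := by ring
    have h2 : lam (v * y) = lam (v * w) := by
      rw [h1, map_add, hlI _ (Ideal.mul_mem_left _ _ hyw), add_zero]
    rw [← h2]
    have hxy : v * y ∈ 𝒮 e := by
      have := SetLike.mul_mem_graded hvi hy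
      rwa [show i + (e - i) = e by omega] at this
    exact hle _ hxy hvy
  have hfin : ∀ m, FiniteDimensional k (VV k b n m) := fun m =>
    FiniteDimensional.span_of_finite k (Set.toFinite _)
  have := hfin i
  have := hfin (e - i)
  let B : VV k b n i →ₗ[k] Module.Dual k (VV k b n (e - i)) :=
    LinearMap.mk₂ k (fun v w => lam (v.1 * w.1))
      (fun v v' w => by simp [add_mul]) (fun c v w => by simp)
      (fun v w w' => by simp [mul_add]) (fun c v w => by simp)
  have hB : Function.Injective B := by
    rw [injective_iff_map_eq_zero]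
    intro v hv
    by_contra hv0
    obtain ⟨w, hw, hne⟩ := hnd v.1 v.2 (fun h0 => hv0 (Subtype.ext h0))
    apply hne
    have := congrArg (fun f => f ⟨w, hw⟩) hv
    exact this
  have h1 := LinearMap.finrank_le_finrank_of_injective hB
  rw [Subspace.dual_finrank_eq, finrank_VV h, finrank_VV h] at h1
  exact h1

end Pool.Agent.H964R2.Gor
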