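import Mathlib

namespace Pool.Agent.H964R2.Gor

open Polynomial

/-- `1 + X + ... + X ^ (d - 1)` -/
noncomputable def geo (d : ℕ) : ℤ[X] := ∑ i ∈ Finset.range d, X ^ i

lemma geo_coeff (d i : ℕ) : (geo d).coeff i = if i < d then 1 else 0 := by
  rw [geo, finsetSum_coeff]
  simp only [coeff_X_pow]
  by_cases h : i < d
  · rw [if_pos h, Finset.sum_eq_single i]
    · simp
    · intro b _ hb; rw [if_neg (fun h => hb h.symm)]
    · intro h'; exact absurd (Finset.mem_range.mpr h) h'
  · rw [if_neg h]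
    refine Finset.sum_eq_zero fun b hb => ?_
    have := Finset.mem_range.mp hb
    rw [if_neg (by omega)]

lemma geo_natDegree {d : ℕ} (hd : 0 < d) : (geo d).natDegree = d - 1 := by
  apply le_antisymm
  · rw [natDegree_le_iff_coeff_eq_zero]
    intro N hN
    rw [geo_coeff, if_neg (by omega)]
  · apply le_natDegree_of_ne_zero
    rw [geo_coeff, if_pos (by omega)]
    exact one_ne_zero

lemma geo_ne_zero {d : ℕ} (hd : 0 < d) : geo d ≠ 0 := by
  intro h
  have := geo_coeff d 0
  rw [h, coeff_zero, if_pos hd] at this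
  exact zero_ne_one this

lemma geo_monic {d : ℕ} (hd : 0 < d) : (geo d).Monic := by
  rw [Monic, leadingCoeff, geo_natDegree hd, geo_coeff, if_pos (by omega)]

lemma geo_reverse {d : ℕ} (hd : 0 < d) : (geo d).reverse = geo d := by
  ext i
  rw [coeff_reverse, geo_natDegree hd]
  by_cases hi : i ≤ d - 1
  · rw [revAt_le hi, geo_coeff, geo_coeff, if_pos (by omega), if_pos (by omega)]
  · rw [revAt_eq_self_of_lt (by omega)]

lemma geo_mul (d : ℕ) : (1 - X) * geo d = 1 - X ^ d := by
  rw [geo, mul_comm]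
  exact geom_sum_mul_neg X d

lemma geo_coprime (d : ℕ) : IsCoprime (geo d) (geo (d + 1)) := by
  refine ⟨-X, 1, ?_⟩
  have : geo (d + 1) = 1 + X * geo d := by
    rw [geo, geo, Finset.sum_range_succ', Finset.mul_sum]
    simp only [pow_succ']
    ring
  rw [this]; ring

lemma coeff_one_sub_pow (D : ℕ) :
    PowerSeries.coeff 0 (((1 - X : ℤ[X]) : PowerSeries ℤ) ^ D) = 1 ∧
    PowerSeries.coeff 1 (((1 - X : ℤ[X]) : PowerSeries ℤ) ^ D) = -(D : ℤ) := by
  induction D with
  | zero => simp [PowerSeries.coeff_one]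
  | succ D ih =>
    obtain ⟨h0, h1⟩ := ih
    have a0 : PowerSeries.coeff 0 ((1 - X : ℤ[X]) : PowerSeries ℤ) = 1 := by
      rw [coeff_coe]; simp
    have a1 : PowerSeries.coeff 1 ((1 - X : ℤ[X]) : PowerSeries ℤ) = -1 := by
      rw [coeff_coe]; simp [coeff_one]
    rw [PowerSeries.coeff_zero_eq_constantCoeff_apply] at h0 a0
    constructor
    · rw [pow_succ, PowerSeries.coeff_zero_eq_constantCoeff_apply, map_mul, h0, a0, one_mul]
    · rw [pow_succ, PowerSeries.coeff_one_mul, h0, a0, h1, a1]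
      push_cast; ring

/-- The Hilbert series argument. -/
theorem poly_part (D d e : ℕ) (hd : 0 < d) (H : PowerSeries ℤ) (Q Q' : ℤ[X])
    (hQ : H * ((1 - X ^ d : ℤ[X]) : PowerSeries ℤ) ^ D = (Q : PowerSeries ℤ))
    (hQ' : H * ((1 - X ^ (d + 1) : ℤ[X]) : PowerSeries ℤ) ^ D = (Q' : PowerSeries ℤ))
    (H0 : PowerSeries.coeff 0 H = 1)
    (hdeg : ∀ i, e < i → Q.coeff i = 0) (hpal : ∀ i, i ≤ e → Q.coeff i = Q.coeff (e - i))
    (hpos : 0 < Q.eval 1) (he : e < D * d) (he' : D + e ≤ D * d + 3) :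
    (D : ℤ) - 1 ≤ PowerSeries.coeff 1 H := by
  set K : PowerSeries ℤ := H * ((1 - X : ℤ[X]) : PowerSeries ℤ) ^ D with hK
  have h1 : K * ((geo d : ℤ[X]) : PowerSeries ℤ) ^ D = Q := by
    rw [hK, mul_assoc, ← mul_pow, ← coe_mul, geo_mul, hQ]
  have h2 : K * ((geo (d + 1) : ℤ[X]) : PowerSeries ℤ) ^ D = Q' := by
    rw [hK, mul_assoc, ← mul_pow, ← coe_mul, geo_mul, hQ']
  have h3 : Q * geo (d + 1) ^ D = Q' * geo d ^ D := by
    apply coe_injective ℤ
    rw [coe_mul, coe_mul, coe_pow, coe_pow, ← h1, ← h2]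
    ring
  have h4 : geo d ^ D ∣ Q := by
    have hc : IsCoprime (geo d ^ D) (geo (d + 1) ^ D) := (geo_coprime d).pow
    exact hc.dvd_of_dvd_mul_right (Dvd.intro_left _ h3.symm)
  obtain ⟨N, hN⟩ := h4
  have hg0 : ((geo d : ℤ[X]) : PowerSeries ℤ) ^ D ≠ 0 := by
    apply pow_ne_zero
    intro h
    exact geo_ne_zero hd (coe_injective ℤ (by rw [h, coe_zero]))
  have hKN : K = (N : PowerSeries ℤ) := by
    apply mul_right_cancel₀ hg0
    rw [h1, hN, coe_mul, coe_pow, mul_comm]
  -- coefficients of `N`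
  have hN0 : N.coeff 0 = 1 := by
    have a := (coeff_one_sub_pow D).1
    rw [PowerSeries.coeff_zero_eq_constantCoeff_apply] at a H0
    rw [← coeff_coe, ← hKN, hK, PowerSeries.coeff_zero_eq_constantCoeff_apply, map_mul, a, H0,
      one_mul]
  have hN1 : N.coeff 1 = PowerSeries.coeff 1 H - D := by
    obtain ⟨a, b⟩ := coeff_one_sub_pow D
    rw [PowerSeries.coeff_zero_eq_constantCoeff_apply] at a
    have H0' := H0
    rw [PowerSeries.coeff_zero_eq_constantCoeff_apply] at H0'
    rw [← coeff_coe, ← hKN, hK, PowerSeries.coeff_one_mul, a, b, H0']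
    ring
  have hgD0 : (geo d ^ D).natDegree = D * (d - 1) := by
    rw [(geo_monic hd).natDegree_pow, geo_natDegree hd]
  have hQ0 : Q.coeff 0 = 1 := by
    rw [hN, mul_coeff_zero, hN0, mul_one, coeff_zero_eq_eval_zero, eval_pow,
      ← coeff_zero_eq_eval_zero, geo_coeff, if_pos hd, one_pow]
  have hQe : Q.coeff e = 1 := by
    have := hpal e le_rfl
    rw [Nat.sub_self] at this
    rw [this, hQ0]
  have hQd : Q.natDegree = e := by
    apply le_antisymm
    · rw [natDegree_le_iff_coeff_eq_zero]; exact hdeg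
    · apply le_natDegree_of_ne_zero; rw [hQe]; exact one_ne_zero
  have hNne : N ≠ 0 := by
    rintro rfl
    rw [coeff_zero] at hN0
    exact zero_ne_one hN0
  have hcd : e = D * (d - 1) + N.natDegree := by
    rw [← hQd, hN, natDegree_mul (pow_ne_zero _ (geo_ne_zero hd)) hNne, hgD0]
  have hDd : D * d = D * (d - 1) + D := by
    obtain ⟨m, rfl⟩ : ∃ m, d = m + 1 := ⟨d - 1, by omega⟩
    simp [mul_add]
  have hc3 : N.natDegree ≤ 3 := by omega
  have hrev : N.reverse = N := by
    have hQr : Q.reverse = Q := by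
      ext i
      rw [coeff_reverse, hQd]
      by_cases hi : i ≤ e
      · rw [revAt_le hi, ← hpal i hi]
      · rw [revAt_eq_self_of_lt (by omega)]
    have hgr : (geo d ^ D).reverse = geo d ^ D := by
      have : ∀ m, (geo d ^ m).reverse = geo d ^ m := by
        intro m
        induction m with
        | zero => rw [pow_zero, ← C_1, reverse_C]
        | succ m ih => rw [pow_succ, reverse_mul_of_domain, ih, geo_reverse hd]
      exact this D
    have h5 := hQr
    rw [hN, reverse_mul_of_domain, hgr] at h5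
    exact mul_left_cancel₀ (pow_ne_zero _ (geo_ne_zero hd)) h5
  have hNpal : ∀ i, i ≤ N.natDegree → N.coeff i = N.coeff (N.natDegree - i) := by
    intro i hi
    conv_lhs => rw [← hrev]
    rw [coeff_reverse, revAt_le hi]
  have hN1pos : 0 < N.eval 1 := by
    have h6 : Q.eval 1 = (d : ℤ) ^ D * N.eval 1 := by
      rw [hN, eval_mul, eval_pow]
      congr 2
      rw [geo, eval_finsetSum]
      simp
    rw [h6] at hpos
    have hdp : (0 : ℤ) < (d : ℤ) ^ D := by positivity
    exact (mul_pos_iff_of_pos_left hdp).mp hpos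
  have hD1 : 1 ≤ D := by
    by_contra h
    have : D = 0 := by omega
    subst this
    omega
  have hD1' : (1 : ℤ) ≤ D := by exact_mod_cast hD1
  rw [eval_eq_sum_range] at hN1pos
  obtain ⟨c, hc⟩ : ∃ c, N.natDegree = c := ⟨_, rfl⟩
  rw [hc] at hN1pos hNpal hc3
  have hz : ∀ i, c < i → N.coeff i = 0 := fun i hi =>
    coeff_eq_zero_of_natDegree_lt (by rw [hc]; exact hi)
  interval_cases c
  · have := hz 1 (by norm_num)
    omega
  · have := hNpal 1 (by norm_num)
    simp only [Nat.sub_self] at this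
    omega
  · have h5 := hNpal 2 (by norm_num)
    simp only [Nat.sub_self] at h5
    simp only [Finset.sum_range_succ, Finset.sum_range_zero, one_pow, mul_one] at hN1pos
    omega
  · have h5 := hNpal 3 (by norm_num)
    have h6 := hNpal 2 (by norm_num)
    simp only [Nat.sub_self] at h5
    norm_num at h6
    simp only [Finset.sum_range_succ, Finset.sum_range_zero, one_pow, mul_one] at hN1pos
    omega

end Pool.Agent.H964R2.Gor
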